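import Mathlib

set_option autoImplicit false
open Polynomial

namespace Pool.Agent.Helper166_DD

/-- Gauss's lemma as a Bézout relation: polynomials over a factorial ring without common factor
generate an ideal which contains a nonzero constant. -/
theorem bezout_of_coprime {R : Type*} [CommRing R] [IsDomain R] [UniqueFactorizationMonoid R]
    {n : ℕ} (f : Fin n → R[X]) (hf : ∀ q : R[X], (∀ i, q ∣ f i) → IsUnit q) :
    ∃ (a : Fin n → R[X]) (r : R), r ≠ 0 ∧ ∑ i, a i * f i = C r := by
  classical
  letI : StrongNormalizationMonoid R := UniqueFactorizationMonoid.strongNormalizationMonoid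
  letI : NormalizedGCDMonoid R := (UniqueFactorizationMonoid.toNormalizedGCDMonoid R)
  let Q := FractionRing R
  have hinj : Function.Injective (algebraMap R Q) := IsFractionRing.injective R Q
  have hinjp : Function.Injective (Polynomial.map (algebraMap R Q)) := Polynomial.map_injective _ hinj
  let I : Ideal Q[X] := Ideal.span (Set.range fun i => (f i).map (algebraMap R Q))
  obtain ⟨h, hh⟩ := (IsPrincipalIdealRing.principal I).principal
  have hdvd : ∀ i, h ∣ (f i).map (algebraMap R Q) := by
    intro i
    have h1 : (f i).map (algebraMap R Q) ∈ I := Ideal.subset_span ⟨i, rfl⟩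
    rw [hh] at h1
    exact Ideal.mem_span_singleton.1 h1
  have hunit : IsUnit h := by
    by_cases h0 : h = 0
    · exfalso
      have h1 : ∀ i, f i = 0 := by
        intro i
        have := hdvd i
        rw [h0, zero_dvd_iff] at this
        exact hinjp (by rw [this, Polynomial.map_zero])
      have h2 := hf X (fun i => by rw [h1 i]; exact dvd_zero _)
      exact Polynomial.not_isUnit_X h2
    · obtain ⟨b, hb, hb2⟩ := IsLocalization.integerNormalization_spec (nonZeroDivisors R) h
      set h' := IsLocalization.integerNormalization (nonZeroDivisors R) h with hh'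
      have hb0 : (algebraMap R Q) b ≠ 0 := by
        intro h1
        have : (b : R) = 0 := hinj (by rw [h1, map_zero])
        exact nonZeroDivisors.ne_zero hb this
      have hmap : h'.map (algebraMap R Q) = C (algebraMap R Q b) * h := by
        rw [hb2, ← Polynomial.smul_eq_C_mul]
        exact (algebraMap_smul Q b h).symm
      have hassoc : Associated h (h'.map (algebraMap R Q)) := by
        rw [hmap]
        have hu : IsUnit (C (algebraMap R Q b)) := Polynomial.isUnit_C.2 (isUnit_iff_ne_zero.2 hb0)
        obtain ⟨u, hu⟩ := hu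
        exact ⟨u, by rw [hu, mul_comm]⟩
      have h'0 : h' ≠ 0 := by
        intro h1
        rw [h1, Polynomial.map_zero] at hassoc
        exact h0 ((associated_zero_iff_eq_zero h).1 hassoc)
      have hprim := h'.isPrimitive_primPart
      have hcont : h'.content ≠ 0 := fun h1 => h'0 (Polynomial.content_eq_zero_iff.1 h1)
      have hpp : (h'.primPart).map (algebraMap R Q) ∣ h'.map (algebraMap R Q) :=
        Polynomial.map_dvd _ (h'.primPart_dvd)
      have hpd : ∀ i, h'.primPart ∣ f i := by
        intro i
        have h1 : (h'.primPart).map (algebraMap R Q) ∣ (f i).map (algebraMap R Q) :=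
          (hpp.trans hassoc.symm.dvd).trans (hdvd i)
        by_cases hfi : f i = 0
        · rw [hfi]; exact dvd_zero _
        have hci : (f i).content ≠ 0 := fun h1 => hfi (Polynomial.content_eq_zero_iff.1 h1)
        have h2 : (h'.primPart).map (algebraMap R Q) ∣ ((f i).primPart).map (algebraMap R Q) := by
          rw [(f i).eq_C_content_mul_primPart, Polynomial.map_mul, Polynomial.map_C] at h1
          have hu : IsUnit (C (algebraMap R Q (f i).content)) :=
            Polynomial.isUnit_C.2 (isUnit_iff_ne_zero.2 fun h3 => hci (hinj (by rw [h3, map_zero])))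
          exact (hu.dvd_mul_left).1 h1
        exact (Polynomial.IsPrimitive.dvd_of_fraction_map_dvd_fraction_map hprim h2).trans (f i).primPart_dvd
      have hu := hf _ hpd
      have hu2 : IsUnit ((h'.primPart).map (algebraMap R Q)) := hu.map (Polynomial.mapRingHom (algebraMap R Q))
      rw [hassoc.isUnit_iff]
      rw [h'.eq_C_content_mul_primPart, Polynomial.map_mul, Polynomial.map_C]
      exact (Polynomial.isUnit_C.2 (isUnit_iff_ne_zero.2 fun h3 => hcont (hinj (by rw [h3, map_zero])))).mul hu2
  have h1 : (1 : Q[X]) ∈ I := by
    rw [hh]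
    exact Ideal.mem_span_singleton.2 hunit.dvd
  obtain ⟨c, hc⟩ := (Ideal.mem_span_range_iff_exists_fun).1 h1
  have hclear : ∀ i, ∃ (b : R) (a : R[X]), b ≠ 0 ∧ a.map (algebraMap R Q) = C (algebraMap R Q b) * c i := by
    intro i
    obtain ⟨b, hb, hb2⟩ := IsLocalization.integerNormalization_spec (nonZeroDivisors R) (c i)
    refine ⟨b, IsLocalization.integerNormalization (nonZeroDivisors R) (c i), nonZeroDivisors.ne_zero hb, ?_⟩
    rw [hb2, ← Polynomial.smul_eq_C_mul]
    exact (algebraMap_smul Q b (c i)).symm
  choose b a hb0 hab using hclear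
  refine ⟨fun i => C (∏ j ∈ Finset.univ.erase i, b j) * a i, ∏ j, b j, Finset.prod_ne_zero_iff.2 (fun j _ => hb0 j), ?_⟩
  apply hinjp
  rw [Polynomial.map_sum, Polynomial.map_C]
  have h2 : ∀ i, ((C (∏ j ∈ Finset.univ.erase i, b j) * a i) * f i).map (algebraMap R Q) =
      C (algebraMap R Q (∏ j, b j)) * (c i * (f i).map (algebraMap R Q)) := by
    intro i
    rw [Polynomial.map_mul, Polynomial.map_mul, hab, Polynomial.map_C,
      ← Finset.mul_prod_erase Finset.univ b (Finset.mem_univ i), map_mul (algebraMap R Q), C_mul]
    ring
  rw [Finset.sum_congr rfl (fun i _ => h2 i), ← Finset.mul_sum, hc, mul_one]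

end Pool.Agent.Helper166_DD
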