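import Mathlib
import Pool.Agent.Helper993.CS.Z5
import Pool.Agent.Helper166_DD.Gauss

set_option autoImplicit false
open MvPolynomial

namespace Pool.Agent.Helper166_DD
universe u

open Pool.Agent.Helper993.CS (iter RedDeg)

/-! ### Iteration over commutative rings -/

/-- iteration over an arbitrary commutative ring -/
noncomputable def iterR {R : Type*} [CommRing R] {N : ℕ} (f : Fin (N+1) → MvPolynomial (Fin (N+1)) R) :
    ℕ → Fin (N+1) → MvPolynomial (Fin (N+1)) R
  | 0 => fun i => MvPolynomial.X i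
  | n+1 => fun i => MvPolynomial.bind₁ (iterR f n) (f i)

lemma iterR_eq {K : Type u} [Field K] {N : ℕ} (f : Fin (N+1) → MvPolynomial (Fin (N+1)) K) (n : ℕ) :
    iterR f n = iter f n := by
  induction n with
  | zero => rfl
  | succ n ih =>
    funext i
    simp only [iterR, iter, ih]

lemma map_iterR {R S : Type*} [CommRing R] [CommRing S] {N : ℕ} (φ : R →+* S)
    (f : Fin (N+1) → MvPolynomial (Fin (N+1)) R) (n : ℕ) (i : Fin (N+1)) :
    map φ (iterR f n i) = iterR (fun j => map φ (f j)) n i := by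
  induction n generalizing i with
  | zero => simp [iterR]
  | succ n ih =>
    simp only [iterR]
    rw [map_bind₁]
    congr 1
    congr 1
    funext j
    exact ih j

/-! ### Coprimality through Bézout relations -/

lemma mv_bezout {L : Type*} [Field L] {N n : ℕ} (G : Fin n → MvPolynomial (Fin (N+1)) L)
    (hG : ∀ q, (∀ i, q ∣ G i) → IsUnit q) (j : Fin (N+1)) :
    ∃ (a : Fin n → MvPolynomial (Fin (N+1)) L) (r : MvPolynomial (Fin (N+1)) L),
      r ≠ 0 ∧ degreeOf j r = 0 ∧ ∑ i, a i * G i = r := by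
  classical
  let σ : Fin (N+1) ≃ Fin (N+1) := Equiv.swap 0 j
  let e : MvPolynomial (Fin (N+1)) L ≃ₐ[L] Polynomial (MvPolynomial (Fin N) L) :=
    (renameEquiv L σ).trans (finSuccEquiv L N)
  obtain ⟨a, r, hr, har⟩ := bezout_of_coprime (fun i => e (G i)) (by
    intro q hq
    have h1 : IsUnit (e.symm q) := hG _ (fun i => by
      obtain ⟨c, hc⟩ := hq i
      exact ⟨e.symm c, by rw [← map_mul, ← hc, e.symm_apply_apply]⟩)
    have h2 := h1.map e
    rwa [e.apply_symm_apply] at h2)
  refine ⟨fun i => e.symm (a i), e.symm (Polynomial.C r), ?_, ?_, ?_⟩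
  · intro h
    have h1 : (Polynomial.C r : Polynomial (MvPolynomial (Fin N) L)) = 0 := by
      rw [← e.apply_symm_apply (Polynomial.C r), h, map_zero]
    exact hr (Polynomial.C_eq_zero.1 h1)
  · have h1 : finSuccEquiv L N (rename σ (e.symm (Polynomial.C r))) = Polynomial.C r :=
      e.apply_symm_apply (Polynomial.C r)
    have h2 := natDegree_finSuccEquiv (rename σ (e.symm (Polynomial.C r)))
    rw [h1, Polynomial.natDegree_C] at h2
    have h3 : σ j = 0 := Equiv.swap_apply_right 0 j
    rw [← h3, degreeOf_rename_of_injective σ.injective] at h2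
    exact h2.symm
  · rw [← har, map_sum]
    refine Finset.sum_congr rfl fun i _ => ?_
    rw [map_mul, e.symm_apply_apply]

lemma isUnit_of_degreeOf {K : Type*} [Field K] {N : ℕ} (q : MvPolynomial (Fin (N+1)) K) (hq : q ≠ 0)
    (h : ∀ j, degreeOf j q = 0) : IsUnit q := by
  have h1 : q.totalDegree = 0 := by
    rw [totalDegree_eq_zero_iff]
    intro m hm j
    have := (degreeOf_le_iff (n := j) (f := q) (d := 0)).1 (h j).le m hm
    omega
  obtain ⟨c, hc⟩ : ∃ c, q = C c := ⟨_, totalDegree_eq_zero_iff_eq_C.1 h1⟩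
  rw [hc]
  have hc0 : c ≠ 0 := by
    rintro rfl
    exact hq (by rw [hc, map_zero])
  exact (isUnit_iff_ne_zero.2 hc0).map (C : K →+* MvPolynomial (Fin (N+1)) K)

lemma coprime_of_bezout {K : Type*} [Field K] {N n : ℕ} (G : Fin n → MvPolynomial (Fin (N+1)) K)
    (h : ∀ j, ∃ (a : Fin n → MvPolynomial (Fin (N+1)) K) (r : MvPolynomial (Fin (N+1)) K),
      r ≠ 0 ∧ degreeOf j r = 0 ∧ ∑ i, a i * G i = r) (q : MvPolynomial (Fin (N+1)) K)
    (hq : ∀ i, q ∣ G i) : IsUnit q := by
  have hq0 : ∀ j, q ≠ 0 ∧ degreeOf j q = 0 := by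
    intro j
    obtain ⟨a, r, hr, hrd, har⟩ := h j
    have h1 : q ∣ r := by
      rw [← har]
      exact Finset.dvd_sum fun i _ => dvd_mul_of_dvd_right (hq i) _
    obtain ⟨c, hc⟩ := h1
    have hq0 : q ≠ 0 := by
      rintro rfl
      exact hr (by rw [hc, zero_mul])
    have hc0 : c ≠ 0 := by
      rintro rfl
      exact hr (by rw [hc, mul_zero])
    refine ⟨hq0, ?_⟩
    rw [hc, degreeOf_mul_eq hq0 hc0] at hrd
    omega
  exact isUnit_of_degreeOf q (hq0 0).1 fun j => (hq0 j).2

/-! ### The values of a rational function of the parameters -/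

/-- the field of rational functions in `k` parameters -/
abbrev RatFn (K : Type u) [Field K] (k : ℕ) := FractionRing (MvPolynomial (Fin k) K)

/-- the rational function `x` of the parameters is defined at `t` with value `y` -/
def HasValue {K : Type u} [Field K] {k : ℕ} (t : Fin k → K) (x : RatFn K k) (y : K) : Prop :=
  ∃ p q : MvPolynomial (Fin k) K, eval t q ≠ 0 ∧
    x = algebraMap _ (RatFn K k) p / algebraMap _ (RatFn K k) q ∧ y = eval t p / eval t q

section
variable {K : Type u} [Field K] {k : ℕ}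

lemma hasValue_iff (t : Fin k → K) (x : RatFn K k) (y : K) : HasValue t x y ↔
    ∃ p q : MvPolynomial (Fin k) K, eval t q ≠ 0 ∧
      x * algebraMap _ (RatFn K k) q = algebraMap _ (RatFn K k) p ∧ y * eval t q = eval t p := by
  have hinj : Function.Injective (algebraMap (MvPolynomial (Fin k) K) (RatFn K k)) :=
    IsFractionRing.injective _ _
  constructor
  · rintro ⟨p, q, hq, hx, hy⟩
    have hq0 : algebraMap _ (RatFn K k) q ≠ 0 := by
      intro h
      have : q = 0 := hinj (by rw [h, map_zero])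
      exact hq (by rw [this, map_zero])
    exact ⟨p, q, hq, by rw [hx, div_mul_cancel₀ _ hq0], by rw [hy, div_mul_cancel₀ _ hq]⟩
  · rintro ⟨p, q, hq, hx, hy⟩
    have hq0 : algebraMap _ (RatFn K k) q ≠ 0 := by
      intro h
      have : q = 0 := hinj (by rw [h, map_zero])
      exact hq (by rw [this, map_zero])
    exact ⟨p, q, hq, by rw [← hx, mul_div_cancel_right₀ _ hq0], by rw [← hy, mul_div_cancel_right₀ _ hq]⟩

/-- the pairs (rational function, value at `t`) form a ring -/
def locPair (t : Fin k → K) : Subring (RatFn K k × K) where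
  carrier := {z | ∃ p q : MvPolynomial (Fin k) K, eval t q ≠ 0 ∧
      z.1 * algebraMap _ (RatFn K k) q = algebraMap _ (RatFn K k) p ∧ z.2 * eval t q = eval t p}
  mul_mem' := by
    rintro ⟨x, y⟩ ⟨x', y'⟩ ⟨p, q, hq, hx, hy⟩ ⟨p', q', hq', hx', hy'⟩
    refine ⟨p * p', q * q', ?_, ?_, ?_⟩
    · rw [map_mul]; exact mul_ne_zero hq hq'
    · simp only [Prod.mk_mul_mk, map_mul] at *
      rw [← hx, ← hx']; ring
    · simp only [Prod.mk_mul_mk, map_mul] at *
      rw [← hy, ← hy']; ring
  one_mem' := ⟨1, 1, by simp, by simp, by simp⟩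
  add_mem' := by
    rintro ⟨x, y⟩ ⟨x', y'⟩ ⟨p, q, hq, hx, hy⟩ ⟨p', q', hq', hx', hy'⟩
    refine ⟨p * q' + p' * q, q * q', ?_, ?_, ?_⟩
    · rw [map_mul]; exact mul_ne_zero hq hq'
    · simp only [Prod.mk_add_mk, map_mul, map_add] at *
      rw [← hx, ← hx']; ring
    · simp only [Prod.mk_add_mk, map_mul, map_add] at *
      rw [← hy, ← hy']; ring
  zero_mem' := ⟨0, 1, by simp, by simp, by simp⟩
  neg_mem' := by
    rintro ⟨x, y⟩ ⟨p, q, hq, hx, hy⟩
    refine ⟨-p, q, hq, ?_, ?_⟩
    · simp only [Prod.neg_mk, map_neg] at *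
      rw [← hx]; ring
    · simp only [Prod.neg_mk, map_neg] at *
      rw [← hy]; ring

lemma mem_locPair (t : Fin k → K) (x : RatFn K k) (y : K) : (x, y) ∈ locPair t ↔ HasValue t x y := by
  rw [hasValue_iff]; rfl

noncomputable def π₁ (t : Fin k → K) : locPair t →+* RatFn K k := (RingHom.fst _ _).comp (locPair t).subtype
noncomputable def π₂ (t : Fin k → K) : locPair t →+* K := (RingHom.snd _ _).comp (locPair t).subtype

lemma π₁_injective (t : Fin k → K) : Function.Injective (π₁ t) := by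
  rw [injective_iff_map_eq_zero]
  rintro ⟨⟨x, y⟩, p, q, hq, hx, hy⟩ h
  have hinj : Function.Injective (algebraMap (MvPolynomial (Fin k) K) (RatFn K k)) :=
    IsFractionRing.injective _ _
  have h0 : x = 0 := h
  subst h0
  simp only [zero_mul] at hx
  have hp : p = 0 := hinj (by rw [← hx, map_zero])
  simp only [hp, map_zero] at hy
  have hy0 : y = 0 := (mul_eq_zero.1 hy).resolve_right hq
  subst hy0
  rfl

/-- lift of a polynomial with a given specialisation -/
lemma lift_pair {σ : Type*} (t : Fin k → K) (F : MvPolynomial σ (RatFn K k)) (h : MvPolynomial σ K)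
    (hF : ∀ m, HasValue t (coeff m F) (coeff m h)) :
    ∃ Φ : MvPolynomial σ (locPair t), map (π₁ t) Φ = F ∧ map (π₂ t) Φ = h := by
  classical
  let c : (σ →₀ ℕ) → locPair t := fun m => ⟨(coeff m F, coeff m h), (mem_locPair t _ _).2 (hF m)⟩
  have hc : ∀ m, m ∉ F.support ∪ h.support → c m = 0 := by
    intro m hm
    rw [Finset.mem_union, not_or, notMem_support_iff, notMem_support_iff] at hm
    apply Subtype.ext
    simp only [c, hm.1, hm.2]
    rfl
  refine ⟨∑ m ∈ F.support ∪ h.support, monomial m (c m), ?_, ?_⟩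
  · ext m
    rw [coeff_map, coeff_sum]
    simp only [coeff_monomial, Finset.sum_ite_eq', ]
    split_ifs with h1
    · rfl
    · have h2 : c m = 0 := hc m h1
      have h3 : (coeff m F, coeff m h) = ((0, 0) : RatFn K k × K) := congrArg Subtype.val h2
      rw [map_zero]
      exact (congrArg Prod.fst h3).symm
  · ext m
    rw [coeff_map, coeff_sum]
    simp only [coeff_monomial, Finset.sum_ite_eq']
    split_ifs with h1
    · rfl
    · have h2 : c m = 0 := hc m h1
      have h3 : (coeff m F, coeff m h) = ((0, 0) : RatFn K k × K) := congrArg Subtype.val h2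
      rw [map_zero]
      exact (congrArg Prod.snd h3).symm

/-- a polynomial over the rational functions can be specialised at most parameters -/
lemma exists_lift {σ : Type*} (F : MvPolynomial σ (RatFn K k)) :
    ∃ s : MvPolynomial (Fin k) K, s ≠ 0 ∧ ∀ t, eval t s ≠ 0 →
      ∃ Φ : MvPolynomial σ (locPair t), map (π₁ t) Φ = F := by
  classical
  have h1 : ∀ x : RatFn K k, ∃ p q : MvPolynomial (Fin k) K, q ≠ 0 ∧
      x = algebraMap _ (RatFn K k) p / algebraMap _ (RatFn K k) q := by
    intro x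
    obtain ⟨p, q, hq, hx⟩ := IsFractionRing.div_surjective (A := MvPolynomial (Fin k) K) x
    exact ⟨p, q, nonZeroDivisors.ne_zero hq, hx.symm⟩
  choose p q hq hx using h1
  refine ⟨∏ m ∈ F.support, q (coeff m F), Finset.prod_ne_zero_iff.2 fun m _ => hq _, ?_⟩
  intro t ht
  rw [map_prod, Finset.prod_ne_zero_iff] at ht
  let h : MvPolynomial σ K := ∑ m ∈ F.support, monomial m (eval t (p (coeff m F)) / eval t (q (coeff m F)))
  obtain ⟨Φ, hΦ, _⟩ := lift_pair t F h (by
    intro m
    simp only [h, coeff_sum, coeff_monomial, Finset.sum_ite_eq']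
    split_ifs with h1
    · exact ⟨p (coeff m F), q (coeff m F), ht m h1, hx _, rfl⟩
    · rw [notMem_support_iff] at h1
      rw [h1]
      exact ⟨0, 1, by simp, by simp, by simp⟩)
  exact ⟨Φ, hΦ⟩

lemma exists_lift_ne {σ : Type*} (F : MvPolynomial σ (RatFn K k)) (hF : F ≠ 0) :
    ∃ s : MvPolynomial (Fin k) K, s ≠ 0 ∧ ∀ t, eval t s ≠ 0 →
      ∃ Φ : MvPolynomial σ (locPair t), map (π₁ t) Φ = F ∧ map (π₂ t) Φ ≠ 0 := by
  classical
  obtain ⟨s, hs, hs'⟩ := exists_lift F
  obtain ⟨m, hm⟩ := ne_zero_iff.1 hF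
  obtain ⟨s2, hs2, hs2'⟩ := exists_lift (C (coeff m F)⁻¹ : MvPolynomial σ (RatFn K k))
  refine ⟨s * s2, mul_ne_zero hs hs2, ?_⟩
  intro t ht
  rw [map_mul, mul_ne_zero_iff] at ht
  obtain ⟨Φ, hΦ⟩ := hs' t ht.1
  obtain ⟨Ψ, hΨ⟩ := hs2' t ht.2
  refine ⟨Φ, hΦ, ?_⟩
  intro h
  have h1 : coeff m Φ * coeff 0 Ψ = 1 := by
    apply π₁_injective t
    rw [map_mul, map_one, ← coeff_map, ← coeff_map, hΦ, hΨ, coeff_C, if_pos rfl, mul_inv_cancel₀ hm]
  have h2 : (π₂ t) (coeff m Φ) = 0 := by rw [← coeff_map, h, coeff_zero]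
  have h3 := congrArg (π₂ t) h1
  rw [map_mul, h2, zero_mul, map_one] at h3
  exact zero_ne_one h3

/-- the reduced degree of an iterate is the generic one at most parameters -/
theorem generic_redDeg {N : ℕ} (F : Fin (N+1) → MvPolynomial (Fin (N+1)) (RatFn K k)) (n D : ℕ)
    (h : RedDeg (iter F n) D) :
    ∃ s : MvPolynomial (Fin k) K, s ≠ 0 ∧ ∀ t, eval t s ≠ 0 →
      ∀ hh : Fin (N+1) → MvPolynomial (Fin (N+1)) K,
        (∀ i m, HasValue t (coeff m (F i)) (coeff m (hh i))) → RedDeg (iter hh n) D := by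
  classical
  obtain ⟨H, G, hH, hG, hhom, hcop⟩ := h
  choose a r hr hrd har using mv_bezout G hcop
  obtain ⟨sH, hsH, hsH'⟩ := exists_lift_ne H hH
  choose sG hsG hsG' using fun i => exists_lift (G i)
  choose sa hsa hsa' using fun j i => exists_lift (a j i)
  choose sr hsr hsr' using fun j => exists_lift_ne (r j) (hr j)
  refine ⟨sH * (∏ i, sG i) * (∏ j, ∏ i, sa j i) * (∏ j, sr j), ?_, ?_⟩
  · exact mul_ne_zero (mul_ne_zero (mul_ne_zero hsH (Finset.prod_ne_zero_iff.2 fun i _ => hsG i))
      (Finset.prod_ne_zero_iff.2 fun j _ => Finset.prod_ne_zero_iff.2 fun i _ => hsa j i))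
      (Finset.prod_ne_zero_iff.2 fun j _ => hsr j)
  intro t ht hh hhh
  rw [map_mul, map_mul, map_mul, map_prod, map_prod, map_prod, mul_ne_zero_iff, mul_ne_zero_iff,
    mul_ne_zero_iff, Finset.prod_ne_zero_iff, Finset.prod_ne_zero_iff, Finset.prod_ne_zero_iff] at ht
  obtain ⟨⟨⟨htH, htG⟩, hta⟩, htr⟩ := ht
  choose Φ hΦ1 hΦ2 using fun i => lift_pair t (F i) (hh i) (hhh i)
  obtain ⟨H', hH'1, hH'2⟩ := hsH' t htH
  choose G' hG' using fun i => hsG' i t (htG i (Finset.mem_univ i))
  have hta' : ∀ j i, eval t (sa j i) ≠ 0 := by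
    intro j i
    have := hta j (Finset.mem_univ j)
    rw [map_prod, Finset.prod_ne_zero_iff] at this
    exact this i (Finset.mem_univ i)
  choose a' ha' using fun j i => hsa' j i t (hta' j i)
  choose r' hr'1 hr'2 using fun j => hsr' j t (htr j (Finset.mem_univ j))
  have hinj := map_injective (σ := Fin (N+1)) (π₁ t) (π₁_injective t)
  have hit : ∀ i, iterR Φ n i = H' * G' i := by
    intro i
    apply hinj
    rw [map_iterR, map_mul, hH'1, hG', ← hG i, ← iterR_eq]
    congr 1
    funext j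
    exact hΦ1 j
  have hbz : ∀ j, ∑ i, a' j i * G' i = r' j := by
    intro j
    apply hinj
    rw [map_sum, hr'1, ← har j]
    refine Finset.sum_congr rfl fun i _ => ?_
    rw [map_mul, ha', hG']
  refine ⟨map (π₂ t) H', fun i => map (π₂ t) (G' i), hH'2, ?_, ?_, ?_⟩
  · intro i
    rw [← map_mul, ← hit i, map_iterR, ← iterR_eq]
    congr 1
    funext j
    exact (hΦ2 j).symm
  · intro i
    refine IsHomogeneous.map (IsHomogeneous.of_map (π₁_injective t) ?_) _
    rw [hG']
    exact hhom i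
  · apply coprime_of_bezout
    intro j
    refine ⟨fun i => map (π₂ t) (a' j i), map (π₂ t) (r' j), hr'2 j, ?_, ?_⟩
    · have h1 : degreeOf j (map (π₁ t) (r' j)) = 0 := by rw [hr'1]; exact hrd j
      have h2 : ∀ m ∈ (r' j).support, m j ≤ 0 := by
        intro m hm
        refine (degreeOf_le_iff (n := j) (f := map (π₁ t) (r' j)) (d := 0)).1 h1.le m ?_
        rw [support_map_of_injective _ (π₁_injective t)]
        exact hm
      refine Nat.eq_zero_of_le_zero ((degreeOf_le_iff (n := j) (d := 0)).2 fun m hm => ?_)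
      exact h2 m (support_map_subset _ _ hm)
    · rw [← hbz j, map_sum]
      refine Finset.sum_congr rfl fun i _ => ?_
      rw [map_mul]
end

end Pool.Agent.Helper166_DD
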