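import Mathlib
import Pool.Agent.Helper166_DD.Generic

set_option autoImplicit false
open MvPolynomial Filter Topology

namespace Pool.Agent.Helper166_DD
universe u

open Pool.Agent.Helper993.CS (iter RedDeg iter_hom main_inf redDeg_unique ff_scale)

variable {K : Type u} [Field K] {N k : ℕ}

lemma iter_add (g : Fin (N+1) → MvPolynomial (Fin (N+1)) K) (a b : ℕ) (i : Fin (N+1)) :
    iter g (a + b) i = bind₁ (iter g b) (iter g a i) := by
  induction a generalizing i with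
  | zero => simp [iter]
  | succ a ih =>
    rw [show a + 1 + b = (a + b) + 1 by omega]
    simp only [iter]
    rw [bind₁_bind₁]
    congr 1
    congr 1
    funext j
    exact ih j

lemma iter_iter (g : Fin (N+1) → MvPolynomial (Fin (N+1)) K) (m n : ℕ) :
    iter (iter g m) n = iter g (m * n) := by
  induction n with
  | zero => rfl
  | succ n ih =>
    funext i
    rw [show m * (n + 1) = m + m * n by ring, iter_add g m (m * n), ← ih]
    rfl

lemma iter_algInd (g : Fin (N+1) → MvPolynomial (Fin (N+1)) K) (h : AlgebraicIndependent K g) (m : ℕ) :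
    AlgebraicIndependent K (iter g m) := by
  induction m with
  | zero => exact MvPolynomial.algebraicIndependent_X _ _
  | succ m ih =>
    have h1 : (aeval (iter g (m+1)) : MvPolynomial (Fin (N+1)) K →ₐ[K] MvPolynomial (Fin (N+1)) K) =
        (aeval (iter g m)).comp (aeval g) := by
      apply MvPolynomial.algHom_ext
      intro i
      rw [AlgHom.comp_apply, aeval_X, aeval_X]
      rfl
    unfold AlgebraicIndependent at ih h ⊢
    rw [h1, AlgHom.coe_comp]
    exact Function.Injective.comp ih h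

/-- iterating proportional tuples of forms -/
lemma iter_scale (d : ℕ) (g h : Fin (N+1) → MvPolynomial (Fin (N+1)) K) (hg : ∀ i, (g i).IsHomogeneous d)
    (c : MvPolynomial (Fin (N+1)) K) (hc : ∀ i, h i = c * g i) (n : ℕ) :
    ∃ e : MvPolynomial (Fin (N+1)) K, ∀ i, iter h n i = e * iter g n i := by
  induction n with
  | zero => exact ⟨1, fun i => by simp [iter]⟩
  | succ n ih =>
    obtain ⟨e, he⟩ := ih
    refine ⟨bind₁ (iter h n) c * e ^ d, fun i => ?_⟩
    simp only [iter]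
    rw [hc i, map_mul, mul_assoc]
    congr 1
    have h1 : iter h n = fun i => e * iter g n i := funext he
    rw [h1]
    exact ff_scale (hg i) e (iter g n)

/-- the uniform lower bound for the iterates of a map -/
theorem lower (N : ℕ) (hN : 1 ≤ N) : ∃ γ : ℝ, 0 < γ ∧
    ∀ (K : Type u) [Field K] [Infinite K] (d : ℕ) (f : Fin (N+1) → MvPolynomial (Fin (N+1)) K),
      (∀ i, (f i).IsHomogeneous d) → AlgebraicIndependent K f →
      ∀ D : ℕ → ℕ, (∀ n, RedDeg (iter f n) (D n)) →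
      ∀ δ : ℝ, Tendsto (fun n : ℕ => (D n : ℝ) ^ ((1:ℝ) / n)) atTop (𝓝 δ) →
      ∀ m : ℕ, 1 ≤ m → ∀ M : ℝ, (∀ j < N, M * D (m * j) ≤ D (m * (j+1))) → γ * M ≤ δ ^ m := by
  obtain ⟨γ, hγ, key⟩ := main_inf.{u} N hN
  refine ⟨γ, hγ, ?_⟩
  intro K _ _ d f hf hdom D hD δ hδ m hm M hM
  obtain ⟨D', hD'0, hD', δ', hδ', hlow⟩ := key K (d^m) (iter f m) (iter_hom d f hf m) (iter_algInd f hdom m)
  have hDD : ∀ n, D (m * n) = D' n := by
    intro n
    apply (hD' n).2
    rw [iter_iter]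
    exact hD _
  have hδδ : δ' = δ ^ m := by
    refine tendsto_nhds_unique hδ' ?_
    have h1 : Tendsto (fun n : ℕ => ((D (m * n) : ℝ) ^ ((1:ℝ) / ((m * n : ℕ) : ℝ))) ^ m) atTop (𝓝 (δ ^ m)) := by
      refine (Tendsto.comp hδ ?_).pow m
      exact tendsto_id.const_mul_atTop' (by omega)
    refine h1.congr' ?_
    filter_upwards [eventually_gt_atTop 0] with n hn
    rw [← hDD, ← Real.rpow_natCast, ← Real.rpow_mul (Nat.cast_nonneg _)]
    congr 1
    push_cast
    have hm0 : (m : ℝ) ≠ 0 := by positivity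
    have hn0 : (n : ℝ) ≠ 0 := by positivity
    field_simp
  rw [← hδδ]
  apply hlow
  intro j hj
  rw [← hDD, ← hDD]
  exact hM j hj

lemma tendsto_log_div (D : ℕ → ℕ) (hD : ∀ n, 0 < D n) (δ : ℝ) (hδ0 : 0 < δ)
    (hδ : Tendsto (fun n : ℕ => (D n : ℝ) ^ ((1:ℝ) / n)) atTop (𝓝 δ)) :
    Tendsto (fun n : ℕ => Real.log (D n) / n) atTop (𝓝 (Real.log δ)) := by
  have h1 := hδ.log hδ0.ne'
  refine h1.congr fun n => ?_
  rw [Real.log_rpow (by exact_mod_cast hD n)]
  ring

lemma tendsto_log_mul (D : ℕ → ℕ) (hD : ∀ n, 0 < D n) (δ : ℝ) (hδ0 : 0 < δ)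
    (hδ : Tendsto (fun n : ℕ => (D n : ℝ) ^ ((1:ℝ) / n)) atTop (𝓝 δ)) (j : ℕ) :
    Tendsto (fun m : ℕ => Real.log (D (m * j)) / m) atTop (𝓝 (j * Real.log δ)) := by
  rcases Nat.eq_zero_or_pos j with rfl | hj
  · simp only [mul_zero, Nat.cast_zero, zero_mul]
    exact tendsto_const_div_atTop_nhds_zero_nat _
  · have h1 : Tendsto (fun m : ℕ => (j : ℝ) * (Real.log (D (m * j)) / ((m * j : ℕ) : ℝ))) atTop
        (𝓝 (j * Real.log δ)) := by
      refine Tendsto.const_mul _ (Tendsto.comp (tendsto_log_div D hD δ hδ0 hδ) ?_)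
      exact tendsto_id.atTop_mul_const' hj
    refine h1.congr' ?_
    filter_upwards [eventually_gt_atTop 0] with m hm
    push_cast
    have hm0 : (m : ℝ) ≠ 0 := by positivity
    have hj0 : (j : ℝ) ≠ 0 := by positivity
    field_simp

lemma exists_m (D : ℕ → ℕ) (hD : ∀ n, 0 < D n) (δ : ℝ)
    (hδ : Tendsto (fun n : ℕ => (D n : ℝ) ^ ((1:ℝ) / n)) atTop (𝓝 δ)) (γ β : ℝ) (hγ : 0 < γ)
    (hβ0 : 0 < β) (hβ : β < δ) (N : ℕ) :
    ∃ m : ℕ, 1 ≤ m ∧ ∀ j < N, β ^ m / γ * D (m * j) ≤ D (m * (j + 1)) := by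
  have hδ0 : 0 < δ := hβ0.trans hβ
  have h1 : ∀ j : ℕ, ∀ᶠ m : ℕ in atTop, Real.log β <
      Real.log (D (m * (j+1))) / m - Real.log (D (m * j)) / m + Real.log γ / m := by
    intro j
    have h2 := ((tendsto_log_mul D hD δ hδ0 hδ (j+1)).sub (tendsto_log_mul D hD δ hδ0 hδ j)).add
      (tendsto_const_div_atTop_nhds_zero_nat (Real.log γ))
    have h3 : ((j + 1 : ℕ) : ℝ) * Real.log δ - j * Real.log δ + 0 = Real.log δ := by
      push_cast; ring
    rw [h3] at h2
    exact h2.eventually_const_lt (Real.log_lt_log hβ0 hβ)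
  have h2 : ∀ᶠ m : ℕ in atTop, ∀ j < N, Real.log β <
      Real.log (D (m * (j+1))) / m - Real.log (D (m * j)) / m + Real.log γ / m := by
    have := (Filter.eventually_all_finset (Finset.range N) (l := atTop) (p := fun j (m : ℕ) => Real.log β <
      Real.log (D (m * (j+1))) / m - Real.log (D (m * j)) / m + Real.log γ / m)).2 fun j _ => h1 j
    simpa using this
  obtain ⟨m, hm, hm1⟩ := (h2.and (eventually_ge_atTop 1)).exists
  refine ⟨m, hm1, fun j hj => ?_⟩
  have hm0 : (0:ℝ) < m := by exact_mod_cast hm1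
  have hD1 : (0:ℝ) < D (m * (j+1)) := by exact_mod_cast hD _
  have hD0 : (0:ℝ) < D (m * j) := by exact_mod_cast hD _
  have h3 := hm j hj
  rw [← sub_div, ← add_div, lt_div_iff₀ hm0] at h3
  rw [← Real.log_le_log_iff (by positivity) hD1, Real.log_mul (by positivity) hD0.ne',
    Real.log_div (by positivity) hγ.ne', Real.log_pow]
  nlinarith [h3]

lemma infinite_ratFn [Infinite K] : Infinite (RatFn K k) :=
  Infinite.of_injective (algebraMap K (RatFn K k)) (algebraMap K (RatFn K k)).injective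

/-- A rational map of projective space. -/
structure RatMap (K : Type u) [Field K] (N : ℕ) where
  /-- the coordinates -/
  coord : Fin (N+1) → MvPolynomial (Fin (N+1)) K
  /-- the degree -/
  deg : ℕ
  homog : ∀ i, (coord i).IsHomogeneous deg
  coprime : ∀ q, (∀ i, q ∣ coord i) → IsUnit q

/-- `f` is dominant: its coordinates satisfy no nontrivial polynomial relation. -/
def RatMap.Dominant (f : RatMap K N) : Prop := AlgebraicIndependent K f.coord

/-- `g` is the `n`-th iterate of `f`: one composes and removes the common factor `c`. -/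
def RatMap.IsIter (f : RatMap K N) (n : ℕ) (g : RatMap K N) : Prop :=
  ∃ c : MvPolynomial (Fin (N+1)) K, c ≠ 0 ∧ ∀ i, iter f.coord n i = c * g.coord i

/-- `δ = lim deg(f^n)^(1/n)` is the dynamical degree of `f`. -/
def RatMap.IsDynDeg (f : RatMap K N) (δ : ℝ) : Prop :=
  ∃ g : ℕ → RatMap K N, (∀ n, f.IsIter n (g n)) ∧
    Tendsto (fun n : ℕ => ((g n).deg : ℝ) ^ ((1:ℝ) / n)) atTop (𝓝 δ)

/-- `g` is the specialisation of `F` at `t`, with common factors removed. -/
def SpecializesTo (F : RatMap (RatFn K k) N) (t : Fin k → K) (g : RatMap K N) : Prop :=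
  ∃ (h : Fin (N+1) → MvPolynomial (Fin (N+1)) K) (c : MvPolynomial (Fin (N+1)) K),
    c ≠ 0 ∧ (∀ i m, HasValue t (coeff m (F.coord i)) (coeff m (h i))) ∧ ∀ i, h i = c * g.coord i

lemma RatMap.IsIter.redDeg {f : RatMap K N} {n : ℕ} {g : RatMap K N} (h : f.IsIter n g) :
    RedDeg (iter f.coord n) g.deg := by
  obtain ⟨c, hc, hg⟩ := h
  exact ⟨c, g.coord, hc, hg, g.homog, g.coprime⟩

lemma RatMap.exists_dynDeg [Infinite K] (hN : 1 ≤ N) (f : RatMap K N) (hf : f.Dominant) :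
    ∃ δ, f.IsDynDeg δ ∧ ∀ δ', f.IsDynDeg δ' → δ' = δ := by
  obtain ⟨γ, hγ, key⟩ := main_inf.{u} N hN
  obtain ⟨D, hD0, hD, δ, hδ, -⟩ := key K f.deg f.coord f.homog hf
  refine ⟨δ, ?_, ?_⟩
  · choose H G hH hG hhom hcop using fun n => (hD n).1
    exact ⟨fun n => ⟨G n, D n, hhom n, hcop n⟩, fun n => ⟨H n, hH n, hG n⟩, hδ⟩
  · rintro δ' ⟨g, hg, hδ'⟩
    refine tendsto_nhds_unique hδ' (hδ.congr fun n => ?_)
    rw [(hD n).2 _ (hg n).redDeg]

lemma ne_zero_of_algInd {g : Fin (N+1) → MvPolynomial (Fin (N+1)) K} (h : AlgebraicIndependent K g)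
    (i : Fin (N+1)) : g i ≠ 0 := h.ne_zero i

/-- the degrees of the iterates of a good specialisation -/
lemma spec_redDeg (F : RatMap (RatFn K k) N) (n D : ℕ) (h : RedDeg (iter F.coord n) D) :
    ∃ s : MvPolynomial (Fin k) K, s ≠ 0 ∧ ∀ t, eval t s ≠ 0 →
      ∀ g : RatMap K N, SpecializesTo F t g → g.Dominant → ∀ D', RedDeg (iter g.coord n) D' → D' = D := by
  obtain ⟨s, hs, hs'⟩ := generic_redDeg F.coord n D h
  refine ⟨s, hs, fun t ht g hg hdom D' hD' => ?_⟩
  obtain ⟨hh, c, hc, hval, hhc⟩ := hg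
  have h1 := hs' t ht hh hval
  obtain ⟨e, he⟩ := iter_scale g.deg g.coord hh g.homog c hhc n
  have he0 : e ≠ 0 := by
    rintro rfl
    obtain ⟨H, G, hH, hG, _, hcop⟩ := h1
    have h2 : ∀ i, G i = 0 := by
      intro i
      have h3 := hG i
      rw [he i, zero_mul] at h3
      exact (mul_eq_zero.1 h3.symm).resolve_left hH
    have h4 := hcop 0 (fun i => by rw [h2 i])
    exact not_isUnit_zero h4
  have h2 : RedDeg (iter hh n) D' := by
    obtain ⟨H, G, hH, hG, hhom, hcop⟩ := hD'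
    exact ⟨e * H, G, mul_ne_zero he0 hH, fun i => by rw [he i, hG i, mul_assoc], hhom, hcop⟩
  refine redDeg_unique (iter hh n) ?_ D' D h2 h1
  rw [he 0]
  exact mul_ne_zero he0 (ne_zero_of_algInd (iter_algInd g.coord hdom n) 0)

theorem nodrop [Infinite K] (hN : 1 ≤ N) (F : RatMap (RatFn K k) N) (hF : F.Dominant) (δ : ℝ)
    (hδ : F.IsDynDeg δ) (ε : ℝ) (hε : 0 < ε) :
    ∃ P : MvPolynomial (Fin k) K, P ≠ 0 ∧ ∀ t, eval t P ≠ 0 →
      ∀ g : RatMap K N, SpecializesTo F t g → g.Dominant → ∀ δ', g.IsDynDeg δ' → δ - ε < δ' := by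
  classical
  haveI := infinite_ratFn (K := K) (k := k)
  obtain ⟨γ, hγ, key⟩ := lower.{u} N hN
  obtain ⟨γ', hγ', key'⟩ := main_inf.{u} N hN
  -- the degrees of the family
  obtain ⟨D, hD0, hD, δ₀, hδ₀, -⟩ := key' (RatFn K k) F.deg F.coord F.homog hF
  have hDδ : Tendsto (fun n : ℕ => (D n : ℝ) ^ ((1:ℝ) / n)) atTop (𝓝 δ) := by
    obtain ⟨G, hG, hGδ⟩ := hδ
    refine hGδ.congr fun n => ?_
    rw [(hD n).2 _ (hG n).redDeg]
  -- data of a specialisation
  have hspec : ∀ g : RatMap K N, g.Dominant → ∀ δ', g.IsDynDeg δ' → ∃ D' : ℕ → ℕ, (∀ n, 0 < D' n) ∧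
      (∀ n, RedDeg (iter g.coord n) (D' n)) ∧ Tendsto (fun n : ℕ => (D' n : ℝ) ^ ((1:ℝ) / n)) atTop (𝓝 δ') := by
    intro g hg δ' hδ'
    obtain ⟨D', hD'0, hD', -⟩ := key' K g.deg g.coord g.homog hg
    refine ⟨D', hD'0, fun n => (hD' n).1, ?_⟩
    obtain ⟨G, hG, hGδ⟩ := hδ'
    refine hGδ.congr fun n => ?_
    rw [(hD' n).2 _ (hG n).redDeg]
  rcases lt_or_ge (δ - ε / 2) 1 with hlt | hge
  · refine ⟨1, one_ne_zero, fun t _ g _ hg δ' hδ' => ?_⟩
    obtain ⟨D', hD'0, -, hD'δ⟩ := hspec g hg δ' hδ'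
    have h1 : 1 ≤ δ' := by
      refine ge_of_tendsto' hD'δ fun n => ?_
      exact Real.one_le_rpow (by exact_mod_cast hD'0 n) (by positivity)
    linarith
  · set β := δ - ε / 2 with hβ
    obtain ⟨m, hm1, hm⟩ := exists_m D hD0 δ hDδ γ β hγ (by linarith) (by linarith) N
    choose s hs hs' using fun j : ℕ => spec_redDeg F (m * j) (D (m * j)) (hD _).1
    refine ⟨∏ j ∈ Finset.range (N+1), s j, Finset.prod_ne_zero_iff.2 fun j _ => hs j, ?_⟩
    intro t ht g hg hdom δ' hδ'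
    rw [map_prod, Finset.prod_ne_zero_iff] at ht
    obtain ⟨D', hD'0, hD', hD'δ⟩ := hspec g hdom δ' hδ'
    have hDD : ∀ j ≤ N, D' (m * j) = D (m * j) := by
      intro j hj
      exact hs' j t (ht j (Finset.mem_range.2 (by omega))) g hg hdom _ (hD' _)
    have h1 := key K g.deg g.coord g.homog hdom D' hD' δ' hD'δ m hm1 (β ^ m / γ) (by
      intro j hj
      rw [hDD j (by omega), hDD (j+1) (by omega)]
      exact hm j hj)
    rw [mul_div_cancel₀ _ hγ.ne'] at h1
    have h2 : 0 ≤ δ' := ge_of_tendsto' hD'δ fun n => by positivity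
    have h3 : β ≤ δ' := le_of_pow_le_pow_left₀ (by omega) h2 h1
    linarith

end Pool.Agent.Helper166_DD
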