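import Mathlib
import Pool.Agent.Helper166_DD.Main

set_option autoImplicit false
open MvPolynomial

namespace Pool.Agent.Helper166_DD
universe u

/-- `S` is Zariski dense in affine space `K^k`: only the zero polynomial vanishes on `S`. -/
def ZariskiDense {K : Type u} [Field K] {k : ℕ} (S : Set (Fin k → K)) : Prop :=
  ∀ P : MvPolynomial (Fin k) K, (∀ t ∈ S, eval t P = 0) → P = 0

/-- The dynamical degree does not drop by `ε` on a Zariski dense set of parameters. -/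
theorem noDrop :
    (∀ (K : Type u) [Field K] [Infinite K] (N : ℕ), 1 ≤ N → ∀ f : RatMap K N, f.Dominant →
      ∃ δ, f.IsDynDeg δ ∧ ∀ δ', f.IsDynDeg δ' → δ' = δ) ∧
    ∀ (K : Type u) [Field K] [Infinite K] (N k : ℕ), 1 ≤ N →
      ∀ F : RatMap (RatFn K k) N, F.Dominant → ∀ δ, F.IsDynDeg δ → ∀ ε > 0,
        ¬ ZariskiDense {t : Fin k → K | ∃ (g : RatMap K N) (δ' : ℝ),
          SpecializesTo F t g ∧ g.Dominant ∧ g.IsDynDeg δ' ∧ δ' ≤ δ - ε} := by
  refine ⟨fun K _ _ N hN f hf => f.exists_dynDeg hN hf, ?_⟩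
  intro K _ _ N k hN F hF δ hδ ε hε hdense
  obtain ⟨P, hP, hPt⟩ := nodrop hN F hF δ hδ ε hε
  refine hP (hdense P ?_)
  rintro t ⟨g, δ', hg, hdom, hδ', hle⟩
  by_contra hne
  exact absurd (hPt t hne g hg hdom δ' hδ') (not_lt.2 hle)

end Pool.Agent.Helper166_DD
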